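import Pool.Agent.BE01.StmtsC
import Pool.Agent.BEF.Defs
import Pool.Agent.BEO.Stmts
import Pool.Agent.Helper70_BE01.Scl

/-!
# Squad BED (MP_be01ff_an): the theorem with an explicit order in a class of symmetric functions,
and the disc of the plane for `α = 2, 4, 6`. Definitions.
-/

namespace Pool.Agent.BED

open Set Filter Topology MeasureTheory
open scoped InnerProductSpace ENNReal
open Pool.Agent.BE01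
open Pool.Agent.BEO (Pl BB ev lap rho)

noncomputable section

section abs

variable {X Y H : Type} [NormedCommRing X] [NormedAlgebra ℝ X] [NormedAddCommGroup Y]
  [NormedSpace ℝ Y] [NormedAddCommGroup H] [InnerProductSpace ℝ H]

/-- Every closed subspace stable under `S` is stable under `R`, `C τ`, `Sn τ`. -/
def Kin (S R : H →L[ℝ] H) (C Sn : ℝ → H →L[ℝ] H) : Prop :=
  ∀ K : Submodule ℝ H, IsClosed (K : Set H) → (∀ h ∈ K, S h ∈ K) →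
    (∀ h ∈ K, R h ∈ K) ∧ (∀ τ, ∀ h ∈ K, C τ h ∈ K) ∧ ∀ τ, ∀ h ∈ K, Sn τ h ∈ K

/-- The closed subspace `K` contains `1` and is stable under the products. -/
structure Pst (A : Alg X Y H) (K : Submodule ℝ H) : Prop where
  closed : IsClosed (K : Set H)
  one : A.e 1 ∈ K
  mH : ∀ x h, A.e x ∈ K → h ∈ K → A.mH x h ∈ K
  B : ∀ y y', A.j y ∈ K → A.j y' ∈ K → A.B y y' ∈ K

/-- Solvability within `K`. -/
structure SlvK (S : H →L[ℝ] H) (K : Submodule ℝ H) (ω : ℝ) (φ : H) (M : ℕ) : Prop where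
  one : ∀ F ∈ K, ⟪F, φ⟫_ℝ = 0 → ∃ q ∈ K, q - (ω ^ 2) • S q = F
  odd : ∀ n : ℕ, Odd n → 3 ≤ n → n ≤ M → ∀ F ∈ K, ∃ q ∈ K, q - ((n : ℝ) ^ 2 * ω ^ 2) • S q = F

end abs

variable {d : ℕ}

/-- The products are the pointwise products. -/
def Ptw {X : Type} [NormedCommRing X] [NormedAlgebra ℝ X] {s : Type} [MeasurableSpace s]
    (μ : Measure s) (A : Alg X (Lp ℝ 4 μ) (Lp ℝ 2 μ)) : Prop :=
  (∀ x, ∀ᵐ z ∂μ, |A.e x z| ≤ ‖x‖) ∧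
  (∀ (h : Lp ℝ 2 μ) (C : ℝ), 0 ≤ C → (∀ᵐ z ∂μ, |h z| ≤ C) → ∃ x, A.e x = h ∧ ‖x‖ ≤ C) ∧
  (∀ x x', A.e (x * x') =ᵐ[μ] fun z => A.e x z * A.e x' z) ∧
  (A.e 1 =ᵐ[μ] fun _ => 1) ∧ (∀ y, A.j y =ᵐ[μ] y) ∧
  (∀ x h, A.mH x h =ᵐ[μ] fun z => A.e x z * h z) ∧
  ∀ y y', A.B y y' =ᵐ[μ] fun z => y z * y' z

/-- `S` is the solution operator of the Dirichlet problem, `Z h` is the gradient of `S h`. -/
def Dir (Ω : Set (En d)) (S : Lp ℝ 2 (mu Ω) →L[ℝ] Lp ℝ 2 (mu Ω))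
    (Z : Lp ℝ 2 (mu Ω) →L[ℝ] Lp (En d) 2 (mu Ω)) : Prop :=
  (∀ h, (S h, Z h) ∈ H10 Ω) ∧ (∀ h, ‖Z h‖ ^ 2 = ⟪h, S h⟫_ℝ) ∧
  (∀ h ψ, Tst Ω ψ → ∫ x, ⟪Z h x, gradient ψ x⟫_ℝ ∂(mu Ω) = ∫ x, h x * ψ x ∂(mu Ω)) ∧
  (∀ (l : ℝ) (u : Lp ℝ 2 (mu Ω)), IsEig Ω l u ↔ u = l • S u) ∧
  ∀ (h u : Lp ℝ 2 (mu Ω)) (G : Lp (En d) 2 (mu Ω)), (u, G) ∈ H10 Ω →
    (∀ ψ, Tst Ω ψ → ∫ x, ⟪G x, gradient ψ x⟫_ℝ ∂(mu Ω) = ∫ x, h x * ψ x ∂(mu Ω)) → u = S h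

/-- `u` is invariant under the linear isometries in `G`. -/
def Inv (Ω : Set (En d)) (G : Set (En d ≃ₗᵢ[ℝ] En d)) (u : Lp ℝ 2 (mu Ω)) : Prop :=
  ∀ g ∈ G, (fun x => u (g x)) =ᵐ[mu Ω] u

/-- The conclusion: a strong solution with the final state rate. -/
def Rat (Ω : Set (En d)) (a : ℝ) (p : ℕ) : Prop :=
  ∃ (u v w : ℝ → Lp ℝ 2 (mu Ω)) (G : ℝ → Lp (En d) 2 (mu Ω)),
    IsSol Ω a ((2 * p : ℕ) : ℝ) u v w G ∧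
    ∃ c C : ℝ, 0 < c ∧ ∀ t, 0 ≤ t →
      c * (1 + t) ^ (-(2 / ((2 * p : ℕ) : ℝ))) ≤ energy Ω v G t ∧
      energy Ω v G t ≤ C * (1 + t) ^ (-(2 / ((2 * p : ℕ) : ℝ)))

/-- Coefficients of the Bessel function `J_0(x) = Σ bj k x^(2k)`. -/
def bj (k : ℕ) : ℝ := (-1) ^ k / (4 ^ k * (k.factorial : ℝ) ^ 2)

/-- The Bessel function `J_0`. -/
def j0 (x : ℝ) : ℝ := ∑' k : ℕ, bj k * x ^ (2 * k)

/-- The radial functions on the disc. -/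
def Rad (R : ℝ) (u : Lp ℝ 2 (mu (BB 2 R))) : Prop := Inv (BB 2 R) Set.univ u

end

end Pool.Agent.BED
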