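import Pool.Agent.BED.Defs

/-!
# Squad BED (MP_be01ff_an): the theorem with an explicit order in a class of symmetric functions,
and the disc of the plane for `α = 2, 4, 6`. Statements.

PART 1. `Ω ⊂ ℝ^d` bounded open, `d = 2, 3`, `G` a set of linear isometries `g` with `gΩ = Ω`,
`K = {u ∈ L² : u ∘ g = u}`. If `l` is an eigenvalue with an invariant eigenfunction `φ`, SIMPLE AMONG
THE INVARIANT FUNCTIONS, `|φ| ≤ B`, `(2p+1) B^(2p) ∫φ² < K p c_p ∫φ^(2p+2)` and `n² l` has no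
INVARIANT eigenfunction for odd `3 ≤ n ≤ 1 + 2pK`, then there is a solution with the final state
rate. (Squad BE01 proved it without symmetry, row `Fnl2Stmt`; here we restrict everything to `K`.)
PART 2. The disc, `G` = all linear isometries, `φ = J_0(x0 |x|/R)`, `x0 = 2.4048…`: `J_0(n x0) ≠ 0`
for odd `3 ≤ n ≤ 97` (numerical, exact integers), which is enough for `α = 2, 4, 6` (`K = 9, 12, 16`,
`1 + 2pK = 19, 49, 97`).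

All the rows can be started at once: `uses` = hypotheses of your theorem, in this order.
-/

namespace Pool.Agent.BED

open Set Filter Topology MeasureTheory
open scoped InnerProductSpace ENNReal
open Pool.Agent.BE01
open Pool.Agent.BEO (Pl BB ev lap rho)

noncomputable section

/-! ## Part 1: symmetric functions -/

/-- CDI (no hypotheses; import and copy the end of `Pool/Agent/Helper82_BE01/DIA.lean`, `theorem
dia`): the operators `R, C τ, Sn τ` constructed there are `D` with `⟪b k, D h⟫ = f(s k) ⟪b k, h⟫`, `f`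
bounded on the `s k`. Let `K` be closed and `S K ⊂ K`, `P` the orthogonal projection on `K`
(`Submodule.starProjection`, `K` is complete). `S` is symmetric (as `R_symm` in `dia`), so `S`
preserves the orthogonal complement of `K`, and `P S = S P`. So `⟪b l, P (b k)⟫ (s k - s l) = 0`,
hence `f(s k) ⟪b l, P (b k)⟫ = f(s l) ⟪b l, P (b k)⟫`, i.e. `P D (b k) = D P (b k)` (`ext_basis`), so
`P D = D P` (`clm_ext`), and for `h ∈ K`: `D h = D P h = P D h ∈ K`. -/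
def CdiStmt : Prop := ∀ (H : Type) [NormedAddCommGroup H] [InnerProductSpace ℝ H]
  [CompleteSpace H] (S : H →L[ℝ] H) (κ : Type) (b : HilbertBasis κ ℝ H) (s : κ → ℝ),
  (∀ k, 0 < s k) → (∀ k, S (b k) = s k • b k) →
  ∃ (R : H →L[ℝ] H) (C Sn : ℝ → H →L[ℝ] H), Prp H S R C Sn ∧ Kin S R C Sn

/-- CSP (uses CDI and, imported, `Pool.Agent.BE01.H51.eib`; copy `Helper82_BE01/SPC.lean`). -/
def CspStmt : Prop := ∀ (V H : Type) [NormedAddCommGroup V] [InnerProductSpace ℝ V]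
  [CompleteSpace V] [NormedAddCommGroup H] [InnerProductSpace ℝ H] [CompleteSpace H]
  (ι : V →L[ℝ] H), DenseRange ι → IsCompactOperator (ι.comp (ContinuousLinearMap.adjoint ι)) →
  ∃ (R : H →L[ℝ] H) (C Sn : ℝ → H →L[ℝ] H) (U : H →L[ℝ] V),
    Prp H (ι.comp (ContinuousLinearMap.adjoint ι)) R C Sn ∧
    Kin (ι.comp (ContinuousLinearMap.adjoint ι)) R C Sn ∧ ∀ h, R h = ι (U h)

/-- AL2 (no hypotheses; import `Helper72_BE01/Alg.lean` and copy `theorem alg`; the last two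
properties are `hL_ae` with `e_ae`, and `hL_ae`). -/
def Al2Stmt : Prop := ∀ (s : Type) [MeasurableSpace s] (μ : Measure s) [IsFiniteMeasure μ],
  ∃ (X : Type) (_ : NormedCommRing X) (_ : NormedAlgebra ℝ X) (_ : CompleteSpace X)
    (A : Alg X (Lp ℝ 4 μ) (Lp ℝ 2 μ)), Ptw μ A

/-- WV3 (uses AL2, CSP and, imported, `Pool.Agent.Helper70BE01All.emb`, `.sta`,
`Pool.Agent.BE01.H94.dns`, `.inc`, `Pool.Agent.BE01.H72.hsc`; copy `Helper70_BE01/Wvc2.lean`). The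
last property of `Dir`: as in the proof of `IsEig → u = l • S u` there: `G - T h ∈ VV Ω` is
orthogonal to the gradients of the test functions, so `G = T h` and `u = ι G = S h`. -/
def Wv3Stmt : Prop := ∀ (d : ℕ) (Ω : Set (En d)), (d = 2 ∨ d = 3) → Dom Ω →
  ∃ (X : Type) (_ : NormedCommRing X) (_ : NormedAlgebra ℝ X) (_ : CompleteSpace X)
    (A : Alg X (Lp ℝ 4 (mu Ω)) (Lp ℝ 2 (mu Ω))) (W : Wv A)
    (Z : Lp ℝ 2 (mu Ω) →L[ℝ] Lp (En d) 2 (mu Ω)),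
    Ptw (mu Ω) A ∧ Kin W.S W.R W.C W.Sn ∧ IsCompactOperator W.S ∧ Dir Ω W.S Z

/-- KSC: the abstract theorem in a closed subspace (uses `Pool.Agent.Helper70BE01Scl.SclStmt`).
Let `X' = {x : X | A.e x ∈ K}`: a closed subalgebra (`e 1 ∈ K`; `e (x x') = mH x (e x')` from `mY_i`,
`j_mY`), so it is a `NormedCommRing`, `NormedAlgebra ℝ`, complete; `Y' = {y : Y | A.j y ∈ K}`, a closed
submodule (`j (mY x y) = mH x (j y) ∈ K`); `H' = K`. The restrictions of `i, j, mY, mH, B` give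
`A' : Alg X' Y' K` (`LinearMap.codRestrict`, `mkContinuous₂`, the norms are the same), and those of
`S, R, C, Sn, SX, RY` give `W' : Wv A'` (`A.e (SX h) = S h ∈ K`, `A.j (RY h) = R h ∈ K`; `Kin` for
`R, C, Sn`; `HasDerivAt` in `K` from `HasDerivAt` in `H`: `hasDerivAt_iff_tendsto` or
`K.subtypeₗᵢ` is an isometry, compare norms). Apply SCL to `A', W', φ`, and compose with the
inclusion of `K` in `H` (continuous linear). -/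
def KscStmt : Prop := ∀ (X Y H : Type) [NormedCommRing X] [NormedAlgebra ℝ X]
  [CompleteSpace X] [NormedAddCommGroup Y] [NormedSpace ℝ Y] [CompleteSpace Y]
  [NormedAddCommGroup H] [InnerProductSpace ℝ H] [CompleteSpace H] (A : Alg X Y H) (W : Wv A)
  (K : Submodule ℝ H) (p : ℕ) (a0 ω : ℝ) (φ : H) (N : ℕ), Pst A K →
  Kin W.S W.R W.C W.Sn → (∀ h ∈ K, W.S h ∈ K) → φ ∈ K → 1 ≤ p → 0 < a0 → 0 < ω →
  φ ≠ 0 → (ω ^ 2) • W.S φ = φ → 0 < ⟪A.e (W.SX ((ω ^ 2) • φ) ^ (2 * p + 1)), φ⟫_ℝ → 1 ≤ N →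
  (2 * p + 1) * ‖W.SX ((ω ^ 2) • φ)‖ ^ (2 * p) <
    N * (p * cp p * (⟪A.e (W.SX ((ω ^ 2) • φ) ^ (2 * p + 1)), φ⟫_ℝ / ⟪φ, φ⟫_ℝ)) →
  SlvK W.S K ω φ (1 + 2 * p * N) → Pool.Agent.BEF.Slt W p a0

/-- FRK: the Fredholm alternative in a closed subspace (uses, imported,
`Pool.Agent.BE01.H69.fre`). Apply `fre` to the restriction of `S` to `K` (a complete inner product
space; compact: the image of the ball of `K` is in `K ∩` a compact set, closed). -/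
def FrkStmt : Prop := ∀ (H : Type) [NormedAddCommGroup H] [InnerProductSpace ℝ H]
  [CompleteSpace H] (S : H →L[ℝ] H) (K : Submodule ℝ H) (l : ℝ), IsCompactOperator S →
  (∀ h k, ⟪S h, k⟫_ℝ = ⟪h, S k⟫_ℝ) → IsClosed (K : Set H) → (∀ h ∈ K, S h ∈ K) →
  ((∀ u ∈ K, u = l • S u → u = 0) → ∀ F ∈ K, ∃ q ∈ K, q - l • S q = F) ∧
  ∀ φ ∈ K, φ ≠ 0 → φ = l • S φ → (∀ u ∈ K, u = l • S u → ∃ c : ℝ, u = c • φ) →
    ∀ F ∈ K, ⟪F, φ⟫_ℝ = 0 → ∃ q ∈ K, q - l • S q = F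

/-- KGA: the invariant functions (no hypotheses). `g` preserves the measure `mu Ω` (linear isometries
preserve `volume`, `LinearIsometryEquiv.measurePreserving`, and `g⁻¹ Ω = Ω`,
`MeasurePreserving.restrict_preimage`), so `u ↦ u ∘ g` is a linear isometry of `L²`
(`Lp.compMeasurePreservingₗᵢ`); `K` is the intersection of the kernels of `T_g - 1`. -/
def KgaStmt : Prop := ∀ (d : ℕ) (Ω : Set (En d)) (G : Set (En d ≃ₗᵢ[ℝ] En d)), Dom Ω →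
  (∀ g ∈ G, ∀ x, g x ∈ Ω ↔ x ∈ Ω) →
  ∃ K : Submodule ℝ (Lp ℝ 2 (mu Ω)), IsClosed (K : Set (Lp ℝ 2 (mu Ω))) ∧
    ∀ u, u ∈ K ↔ Inv Ω G u

/-- PSK: products of invariant functions (no hypotheses). With the formulas of `Ptw`, composition
with `g` (which preserves `mu Ω`, see KGA; `f =ᵐ f'` implies `f ∘ g =ᵐ f' ∘ g`). -/
def PskStmt : Prop := ∀ (d : ℕ) (Ω : Set (En d)) (G : Set (En d ≃ₗᵢ[ℝ] En d)) (X : Type)
  [NormedCommRing X] [NormedAlgebra ℝ X] (A : Alg X (Lp ℝ 4 (mu Ω)) (Lp ℝ 2 (mu Ω)))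
  (K : Submodule ℝ (Lp ℝ 2 (mu Ω))), Dom Ω → (∀ g ∈ G, ∀ x, g x ∈ Ω ↔ x ∈ Ω) →
  Ptw (mu Ω) A → IsClosed (K : Set (Lp ℝ 2 (mu Ω))) → (∀ u, u ∈ K ↔ Inv Ω G u) → Pst A K

/-- SYG: `H^1_0` and isometries (no hypotheses). The maps `u ↦ u ∘ g` of `L²` and `G ↦ g⁻¹ (G ∘ g)` of
`L²(Ω, ℝ^d)` are isometries (see KGA), they map `(ψ, ∇ψ)` to `(ψ ∘ g, ∇(ψ ∘ g))`, `ψ ∘ g` is a test
function (`∇(ψ ∘ g)(x) = g⁻¹ (∇ψ (g x))`); closure. -/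
def SygStmt : Prop := ∀ (d : ℕ) (Ω : Set (En d)) (g : En d ≃ₗᵢ[ℝ] En d) (u : Lp ℝ 2 (mu Ω))
  (G : Lp (En d) 2 (mu Ω)), Dom Ω → (∀ x, g x ∈ Ω ↔ x ∈ Ω) → (u, G) ∈ H10 Ω →
  ∃ (u' : Lp ℝ 2 (mu Ω)) (G' : Lp (En d) 2 (mu Ω)), (u', G') ∈ H10 Ω ∧
    (u' =ᵐ[mu Ω] fun x => u (g x)) ∧ (G' =ᵐ[mu Ω] fun x => g.symm (G (g x)))

/-- SGW: the weak equation and isometries (no hypotheses). Change of variables `x = g⁻¹ y`:
`∫ ⟪g⁻¹ G(g x), ∇ψ(x)⟫ = ∫ ⟪G(y), g ∇ψ(g⁻¹ y)⟫ = ∫ ⟪G, ∇(ψ ∘ g⁻¹)⟫`, `∫ h(g x) ψ(x) = ∫ h (ψ ∘ g⁻¹)`,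
and `ψ ∘ g⁻¹` is a test function. -/
def SgwStmt : Prop := ∀ (d : ℕ) (Ω : Set (En d)) (g : En d ≃ₗᵢ[ℝ] En d)
  (h h' : Lp ℝ 2 (mu Ω)) (G G' : Lp (En d) 2 (mu Ω)), Dom Ω → (∀ x, g x ∈ Ω ↔ x ∈ Ω) →
  (h' =ᵐ[mu Ω] fun x => h (g x)) → (G' =ᵐ[mu Ω] fun x => g.symm (G (g x))) →
  (∀ ψ, Tst Ω ψ → ∫ x, ⟪G x, gradient ψ x⟫_ℝ ∂(mu Ω) = ∫ x, h x * ψ x ∂(mu Ω)) →
  ∀ ψ, Tst Ω ψ → ∫ x, ⟪G' x, gradient ψ x⟫_ℝ ∂(mu Ω) = ∫ x, h' x * ψ x ∂(mu Ω)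

/-- KIS: `S` preserves the invariant functions (uses SYG, SGW). For `g ∈ G` take `(u', G')` from SYG
for `(S h, Z h)`; by SGW with `h' = h` (`h ∘ g =ᵐ h`) and the uniqueness in `Dir`: `u' = S h`. -/
def KisStmt : Prop := ∀ (d : ℕ) (Ω : Set (En d)) (G : Set (En d ≃ₗᵢ[ℝ] En d))
  (S : Lp ℝ 2 (mu Ω) →L[ℝ] Lp ℝ 2 (mu Ω)) (Z : Lp ℝ 2 (mu Ω) →L[ℝ] Lp (En d) 2 (mu Ω)), Dom Ω →
  (∀ g ∈ G, ∀ x, g x ∈ Ω ↔ x ∈ Ω) → Dir Ω S Z → ∀ h, Inv Ω G h → Inv Ω G (S h)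

/-- FN3: the theorem (uses WV3 FRK KSC KGA PSK KIS; copy `Helper70_BE01/Fnl2.lean`, the end is the
same, `Rat` is the conclusion there). `hconv` there = the lift property of `Ptw`. -/
def Fn3Stmt : Prop := ∀ (d : ℕ) (Ω : Set (En d)) (G : Set (En d ≃ₗᵢ[ℝ] En d)) (p N : ℕ)
  (a l B : ℝ) (φ : Lp ℝ 2 (mu Ω)), (d = 2 ∨ d = 3) → Dom Ω →
  (∀ g ∈ G, ∀ x, g x ∈ Ω ↔ x ∈ Ω) → 1 ≤ p → 0 < a → φ ≠ 0 → Inv Ω G φ → IsEig Ω l φ →
  (∀ u, Inv Ω G u → IsEig Ω l u → ∃ c : ℝ, u = c • φ) → (∀ᵐ x ∂(mu Ω), |φ x| ≤ B) →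
  (2 * p + 1) * B ^ (2 * p) * ∫ x, φ x ^ 2 ∂(mu Ω) <
    N * (p * cp p * ∫ x, φ x ^ (2 * p + 2) ∂(mu Ω)) →
  (∀ n : ℕ, Odd n → 3 ≤ n → n ≤ 1 + 2 * p * N →
    ∀ u, Inv Ω G u → IsEig Ω ((n : ℝ) ^ 2 * l) u → u = 0) → Rat Ω a p

/-! ## Part 2: the disc -/

/-- JTA: the series (no hypotheses). Summable: the terms are bounded by those of `exp (x²/4)`.
Error: `bj k x^(2k) = (-1)^k a_k`, `a_(k+1)/a_k = (x²/4)/(k+1)² ≤ 1` for `k ≥ N`; apply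
`alternating_series_error_bound` (with `n = 0` or `1`) to `i ↦ a_(N+i)`, and `Summable.sum_add_tsum_nat_add`. -/
def JtaStmt : Prop := (∀ x : ℝ, Summable fun k : ℕ => bj k * x ^ (2 * k)) ∧
  ∀ (x : ℝ) (N : ℕ), x ^ 2 ≤ 4 * ((N : ℝ) + 1) ^ 2 →
    |j0 x - ∑ k ∈ Finset.range N, bj k * x ^ (2 * k)| ≤ |bj N| * x ^ (2 * N)

/-- JDE: derivatives and the differential equation (no hypotheses). `j0` is the sum of a power series
with infinite radius of convergence (`hasDerivAt_tsum`, or `FormalMultilinearSeries`); `(2k)² bj k =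
- bj (k-1)`. `|j0'| ≤ 1`: `E = j0² + j0'²` has `x E' = - 2 j0'² ≤ 0`·… so `E` is nonincreasing on
`[0, ∞)`, nondecreasing on `(-∞, 0]`, and `E(0) = 1`. -/
def JdeStmt : Prop := (∀ x, HasDerivAt j0 (deriv j0 x) x) ∧
  (∀ x, HasDerivAt (deriv j0) (deriv (deriv j0) x) x) ∧
  (∀ x, x * deriv (deriv j0) x + deriv j0 x + x * j0 x = 0) ∧
  (∀ x, x * deriv j0 x = ∑' k : ℕ, 2 * (k : ℝ) * bj k * x ^ (2 * k)) ∧
  (∀ x, |deriv j0 x| ≤ 1) ∧ ∀ x y, |j0 x - j0 y| ≤ |x - y|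

/-- JLB: bounds near `0` (uses JTA: `N = 1` for the lower bound, `N = 2` for the upper bound, which
gives `1 - x²/4 + x⁴/64 = (1 - x²/8)²`). -/
def JlbStmt : Prop := ∀ x : ℝ, 0 ≤ x → x ≤ 3 →
  1 - x ^ 2 / 4 ≤ j0 x ∧ j0 x ≤ (1 - x ^ 2 / 8) ^ 2

/-- JZE: the first zero (uses JTA JDE JLB). `F(x) = x j0'(x) + x²/2 - x⁴/16` has `F(0) = 0` and `F' =
- x j0 + x - x³/4 ≤ 0` on `[0, 3]`, so `x j0'(x) ≤ - x²/2 + x⁴/16 < 0` for `0 < x ≤ 5/2`: `j0` is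
strictly decreasing on `[0, 5/2]`. `j0 > 0` at `2.404825` (value `2.9e-7`) and `< 0` at `2.404826`
(value `-2.3e-7`): JTA with `N = 8` or `9` and `norm_num`. Intermediate value theorem. -/
def JzeStmt : Prop := ∃ x0 : ℝ, 2404825 / 1000000 < x0 ∧ x0 < 2404826 / 1000000 ∧ j0 x0 = 0 ∧
  deriv j0 x0 ≠ 0 ∧ ∀ x, 0 ≤ x → x ≤ x0 → 0 ≤ j0 x

/-- JNU: numerical verification (uses JTA JDE). Let `y_n = n * 4809651 / 2000000`, so that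
`|n x - y_n| ≤ n * 5e-7 ≤ 5e-5` and `|j0 (n x) - j0 y_n| ≤ 5e-5` (last property of JDE). Verify that
the partial sum with `N` terms (`N = 4 n + 20` or so: then `y_n² ≤ 4 (N+1)²` and the first omitted
term is `≤ 1e-4`) at `y_n` has absolute value `> 2e-4`. The smallest `|J_0(n x0)|` are `0.00119`
(`n = 65`), `0.00599` (`n = 31`). `y_n²/4 = a/b`, `a = (n * 4809651)²`, `b = 16 * 10^12`; with `D_k =
b^k (k!)²`, `P_k = a^k`, `M_k = D_k Σ_(i ≤ k) (-1)^i a^i / (b^i (i!)²)`: `D_(k+1) = D_k b (k+1)²`,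
`P_(k+1) = a P_k`, `M_(k+1) = M_k b (k+1)² ± P_(k+1)`: integers of about 20000 bits, 48 values of `n`,
`~400` steps each: write it as a recursion on natural numbers (positive and negative terms
separately) and prove it with `decide +kernel` or `rfl` (GMP arithmetic in the kernel). -/
def JnuStmt : Prop := ∀ (n : ℕ) (x : ℝ), Odd n → 3 ≤ n → n ≤ 97 → 2404825 / 1000000 < x →
  x < 2404826 / 1000000 → j0 (n * x) ≠ 0

/-- CPV: the constants (no hypotheses; `cp p = 2 binom(2p+2, p+1) / 4^(p+1)`,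
`integral_sin_pow`, ...). -/
def CpvStmt : Prop := cp 1 = 3 / 4 ∧ cp 2 = 5 / 8 ∧ cp 3 = 35 / 64

/-- ORD: the integrals (uses JLB). `integral_fun_norm_addHaar`: the integral of `f(|y|)` over
`BB 2 R` is `2 V ∫_0^R r f(r) dr`, `V = volume of the unit disc`; `r = R s / x0`: with
`c = 4 V (R/x0)²`, `∫ φ^m = (c/2) ∫_0^x0 s j0(s)^m ds`. Upper bound (`m = 2`): `j0² ≤ (1 - s²/8)⁴` and
`∫_0^x0 s (1 - s²/8)⁴ = (4/5)(1 - (1 - x0²/8)⁵) ≤ 4/5`. Lower bound (`m = 2p+2`): `j0 ≥ 1 - s²/4 ≥ 0`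
on `[0, 2]`, `∫_0^2 s (1 - s²/4)^m = 2/(m+1)`. `|φ| ≤ 1`: `0 ≤ j0 ≤ (1 - s²/8)² ≤ 1`. -/
def OrdStmt : Prop := ∀ (R x0 : ℝ) (φ : Lp ℝ 2 (mu (BB 2 R))), 0 < R → 2 ≤ x0 → x0 ≤ 5 / 2 →
  (∀ x, 0 ≤ x → x ≤ x0 → 0 ≤ j0 x) →
  (φ =ᵐ[mu (BB 2 R)] fun y => j0 (x0 * ‖y‖ / R)) →
  (∀ᵐ y ∂(mu (BB 2 R)), |φ y| ≤ 1) ∧ ∃ c : ℝ, 0 < c ∧
    ∫ y, φ y ^ 2 ∂(mu (BB 2 R)) ≤ 2 / 5 * c ∧
    ∀ p : ℕ, c / (2 * p + 3) ≤ ∫ y, φ y ^ (2 * p + 2) ∂(mu (BB 2 R))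

/-- RDE: radial functions orthogonal to the powers of `|x|²` (uses, imported,
`Pool.Agent.BEO.H69.deo`, `Pool.Agent.BEO.H44.evo`). Let `z(x) = x_0 + i x_1`
(`Complex.orthonormalBasisOneI.repr.symm x`) and `Λ(F) = ∫ u F` for continuous `F : En 2 → ℂ`. For the
rotation `g` of angle `θ` (`rotation` conjugated by `Complex.orthonormalBasisOneI.repr`):
`Λ(F ∘ g) = Λ(F)` (`g` preserves `mu (BB 2 R)`, `u ∘ g =ᵐ u`). For `F = z^a conj(z)^b`, `F ∘ g =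
e^(iθ(a-b)) F`; `a ≠ b`: `θ = π/(a-b)` gives `Λ(F) = - Λ(F)`; `a = b`: `F = |x|^(2a)`. Every
polynomial of `x_0 = (z + conj z)/2`, `x_1 = (z - conj z)/(2i)` is a combination of these, so
`∫ u P = 0` for all `P : Pl 2`; DEO. -/
def RdeStmt : Prop := ∀ (R : ℝ) (u : Lp ℝ 2 (mu (BB 2 R))), 0 < R → Rad R u →
  (∀ b : ℕ, ∫ x, u x * ev (rho 2 ^ b) x ∂(mu (BB 2 R)) = 0) → u = 0

/-- SPD: the radial spectrum (uses RDE, JTA, JDE and, imported, `Pool.Agent.BEO.Fin.lpo, evo, oro`;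
copy `Helper10_BEO/SPO.lean` with `H = 1`, `bj` in place of `cf`). LPO with `l = 0`, `H = 1`:
`lap (rho^(k+1)) = 4 (k+1)² rho^k`, and `4 (k+1)² bj (k+1) = - bj k`. Let `μ = (x/R)²`,
`LL(P) = ∫ u (lap P + μ P)`; `LL(rho^b) = R^(2b) LL(1)`. FIRST: `p_K = Σ_(k ≤ K) bj k μ^k rho^k`,
`lap p_K + μ p_K = μ^(K+1) bj K rho^K`, so `j0(x) LL(1) = lim LL(p_K) = 0`. SECOND: `q_K = Σ_(k ≤ K)
k bj k μ^k rho^k`, `lap q_K + μ q_K = - μ p_K + (K+1) bj K μ^(K+1) rho^K`, so `(x j0'(x)/2) LL(1) =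
lim LL(q_K) = - μ ∫ u φ = 0`. In both cases `LL(1) = 0`, so `LL(rho^b) = 0` for all `b`. By induction
on `b`: `rho^b = (lap + μ)(rho^b/μ) - (4b²/μ) rho^(b-1)`, so `∫ u rho^b = 0` for all `b`; RDE. -/
def SpdStmt : Prop := ∀ (R x : ℝ) (u : Lp ℝ 2 (mu (BB 2 R))), 0 < R → 0 < x → Rad R u →
  IsEig (BB 2 R) ((x / R) ^ 2) u →
  (j0 x ≠ 0 → u = 0) ∧
  (deriv j0 x ≠ 0 → ∀ φ : Lp ℝ 2 (mu (BB 2 R)), (φ =ᵐ[mu (BB 2 R)] fun y => j0 (x * ‖y‖ / R)) →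
    ∫ y, u y * φ y ∂(mu (BB 2 R)) = 0 → u = 0)

/-- PHR: the radial eigenfunction (helper93; uses, imported, `Pool.Agent.BEO.Fin.lpo, evo, ibo`,
`Pool.Agent.BEO.H95.coo`). -/
def PhrStmt : Prop := ∀ (R x : ℝ), 0 < R → 0 < x → j0 x = 0 →
  ∃ φ : Lp ℝ 2 (mu (BB 2 R)), (φ =ᵐ[mu (BB 2 R)] fun y => j0 (x * ‖y‖ / R)) ∧ φ ≠ 0 ∧
    Rad R φ ∧ IsEig (BB 2 R) ((x / R) ^ 2) φ

/-- DSC: the disc (uses FN3 JZE JNU CPV ORD SPD PHR). `G = univ` (`‖g x‖ = ‖x‖`), `φ` from PHR at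
`x0`, `B = 1`, `l = (x0/R)²`, `n² l = (n x0/R)²`. Simple: for `u` radial, `c = ∫ u φ / ∫ φ²`,
`u - c φ` is a radial eigenfunction orthogonal to `φ` (radial functions and eigenfunctions are
closed under linear combinations: KGA, or directly), SPD. The condition: `(2p+1) 2/5 <
N p cp p / (2p+3)`: `1.2 < 1.35`, `2 < 2.142`, `2.8 < 2.916` for `p = 1, 2, 3`, `N = 9, 12, 16`. -/
def DscStmt : Prop := ∀ (R a : ℝ) (p : ℕ), 0 < R → 0 < a → 1 ≤ p → p ≤ 3 → Rat (BB 2 R) a p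

end

end Pool.Agent.BED
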