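import Pool.Agent.Helper72_Shell.Rate
import Pool.Agent.Helper72_Shell.Trunc
import Pool.Agent.Helper70_BE01.Fun

/-!
# Squad BED (MP_be01ff_an): THE BALLS OF `ℝ³`, EVERY REAL `0 < α < 2`.  Part U: uniform rate

THEOREM (end of part B).  For `0 < α < 2`, `a > 0`, `R > 0` the ball `|x| < R` of `ℝ³` has a strong solution
with `E(t) ∼ (1+t)^(-2/α)`.

PLAN.  Radial functions `u = w(t, |x|)/|x|`: `w_tt - w_rr + a r^(-α) |w_t|^α w_t = 0` on `(0, R)`.  In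
characteristic form the damping has the weight `b(x) = r^(-α)`, `r = fold ℓ x` the distance of `x` to
`2ℓℤ`, `ℓ = R`.  The weights `κ b` are approximated by `(a/2) (ε + r)^(-α)`
(`Helper72_Shell.exists_charSol`, `wt_shell`).  The solution with `P(0, y) = cos(π y/ℓ)` satisfies
`|P(t+h, y+h) - P(t, y)| ≤ L h`, `L = π/ℓ`, and `|V| ≤ 2 L r`, `V = P(t,y) - P(t,2t-y)`, uniformly in `ε`; so
`κ b |V|^α` is bounded by `κ b min(2M, 2Lr)^α`, which has an integral `≤ C M^β`, `β < 1`, `β ≤ α`; this is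
enough for the argument of `Helper72_Shell/Rate.lean` when `2β > α`.

Part U: everything is uniform in the weight.  All the proofs are modifications of proofs in
`Pool/Agent/Helper72_Shell/Basic.lean`, `Key.lean`, `Rate.lean`, `Pool/Agent/Helper39_Wave/Seq.lean`
(copy the old proof and change the constants).
-/

set_option autoImplicit false

namespace Pool.Agent.BED

open Set Filter Topology MeasureTheory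
open Pool.Agent.Helper39_Wave (phi)
open Pool.Agent.Helper72_Shell (CharSol En psi fold)

noncomputable section

/-- Solutions in characteristic form with bounds which do not depend on the weight.  `fold ℓ x` is the
distance of `x` to `2ℓℤ`. -/
structure UB (κ α ℓ b0 : ℝ) (b : ℝ → ℝ) (P : ℝ → ℝ → ℝ) (k0 k1 Λ : ℝ) : Prop where
  sol : CharSol κ α ℓ b0 b P
  k0p : 0 < k0
  k1n : 0 ≤ k1
  Λn : 0 ≤ Λ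
  lo : k0 ≤ κ * b0
  hi : ∀ x, κ * b x * fold ℓ x ^ α ≤ k1
  vb : ∀ t y, 0 ≤ t → |P t y - P t (2 * t - y)| ≤ Λ * fold ℓ (y - t)
  one : ∀ y, |P 0 y| ≤ 1

/-- The rate of growth in GRW. -/
def lmd (α k0 k1 Λ : ℝ) : ℝ := k1 * Λ ^ α + k0 * ((α + 1) * 2 ^ α)

/-- The constant of the decay of the supremum. -/
def cc (α ℓ k0 k1 Λ : ℝ) : ℝ := k0 * ℓ * Real.exp (-(lmd α k0 k1 Λ * ℓ * (α + 2)))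

/-- GRW (medium; no hypotheses): growth, compare `CharSol.growth`.  `f(s) = M - P(s,z) ≥ 0`
(`CharSol.abs_le_of_le`), `A = M - P(s, 2s-z) ∈ [0, 2M]`, `V = P(s,z) - P(s,2s-z) = A - f`,
`f' = κ b(z-s) φ(V)` (`CharSol.hasDerivAt`).  CLAIM: `κ b φ(V) ≥ k0 φ(A) - lmd f`.  If `V ≥ 0`:
`κ b φ(V) ≥ k0 φ(A - f) ≥ k0 (φ(A) - (α+1) A^α f)`, `A ≤ 2` (mean value, `phi_sub_le`).  If `V < 0`:
`|V| = f - A ≤ f`, `κ b |V|^α ≤ κ b (Λ fold)^α ≤ k1 Λ^α`, so `κ b φ(V) = - κ b |V|^α |V| ≥ - k1 Λ^α f`, and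
`k0 φ(A) = k0 A^α A ≤ k0 2^α f` as `A < f`.  So `(e^(lmd (s - t0)) f)' ≥ e^(..) k0 φ(A) ≥ k0 φ(A)`; integrate. -/
def GrwStmt : Prop := ∀ (κ α ℓ b0 : ℝ) (b : ℝ → ℝ) (P : ℝ → ℝ → ℝ) (k0 k1 Λ : ℝ),
  UB κ α ℓ b0 b P k0 k1 Λ → ∀ t0 M z t : ℝ, 0 ≤ t0 → M ≤ 1 → (∀ y, |P t0 y| ≤ M) → t0 ≤ t →
  (M - P t0 z) + k0 * ∫ s in t0..t, phi α (M - P s (2 * s - z)) ≤
    Real.exp (lmd α k0 k1 Λ * (t - t0)) * (M - P t z)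

/-- STP (easy-medium; uses GRW): one step; copy of the proof of `CharSol.step_le` with
`lam = lmd α k0 k1 Λ` (and `k0` instead of `κ b0`); for the absolute value apply it also to `-P`
(`UB` for `-P`: `CharSol.neg`). -/
def StpStmt : Prop := ∀ (κ α ℓ b0 : ℝ) (b : ℝ → ℝ) (P : ℝ → ℝ → ℝ) (k0 k1 Λ : ℝ),
  UB κ α ℓ b0 b P k0 k1 Λ → ∀ t0 M y : ℝ, 0 ≤ t0 → M ≤ 1 → (∀ y, |P t0 y| ≤ M) →
  |P (t0 + ℓ) y| ≤ M - cc α ℓ k0 k1 Λ * M ^ (α + 1)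

/-- SUP (easy-medium; uses STP): decay of the supremum; copy of `CharSol.sup_decay` with `M0 = 1`,
`A = 1` (`Pool.Agent.Helper39_Wave.scalar_step`). -/
def SupStmt : Prop := ∀ (κ α ℓ b0 : ℝ) (b : ℝ → ℝ) (P : ℝ → ℝ → ℝ) (k0 k1 Λ : ℝ),
  UB κ α ℓ b0 b P k0 k1 Λ → ∀ (k : ℕ) (t y : ℝ), k * ℓ ≤ t →
  |P t y| ≤ (1 + α * cc α ℓ k0 k1 Λ * k) ^ (-(1 / α))

/-- The bound of the linearized damping. -/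
def WW (κ α ℓ : ℝ) (b : ℝ → ℝ) (Λ M x : ℝ) : ℝ := κ * b x * (min (2 * M) (Λ * fold ℓ x)) ^ α

/-- KRN (easy-medium; no hypotheses): its integral.  `f = fold ℓ x`.
`min(2M, Λ f)^α ≤ (2M)^β (Λ f)^(α-β)`, so for `f > 0`: `WW ≤ k1 (2M)^β Λ^(α-β) f^(-β)`, and
`∫_0^(2ℓ) f^(-β) = 2 ∫_0^ℓ x^(-β) dx = 2 ℓ^(1-β)/(1-β)` (`fold ℓ x = x` on `[0, ℓ]`, `= 2ℓ - x` on
`[ℓ, 2ℓ]`; `WW 0 = 0`). -/
def KrnStmt : Prop := ∀ (α ℓ k1 Λ β : ℝ), 0 < α → 0 < ℓ → 0 ≤ k1 → 0 ≤ Λ → 0 < β → β < 1 → β ≤ α →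
  ∃ C : ℝ, 0 < C ∧ ∀ (κ : ℝ) (b : ℝ → ℝ) (M : ℝ), 0 < κ → Continuous b → (∀ x, 0 ≤ b x) →
  (∀ x, κ * b x * fold ℓ x ^ α ≤ k1) → 0 ≤ M →
  ∫ x in (0 : ℝ)..(2 * ℓ), WW κ α ℓ b Λ M x ≤ C * M ^ β

/-- `W` bounds the linearized damping for the times `≥ T`. -/
structure Ker (κ α ℓ : ℝ) (b : ℝ → ℝ) (P : ℝ → ℝ → ℝ) (T w : ℝ) (W : ℝ → ℝ) : Prop where
  cont : Continuous W
  nn : ∀ x, 0 ≤ W x
  even : ∀ x, W (-x) = W x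
  per : ∀ x, W (x + 2 * ℓ) = W x
  int : ∫ x in (0 : ℝ)..(2 * ℓ), W x ≤ w
  bd : ∀ s y, T ≤ s → κ * b (y - s) * |P s y - P s (2 * s - y)| ^ α ≤ W (y - s)

/-- KEY (medium; no hypotheses): the key estimate, compare `CharSol.key_step`.
`f(r,y) = κ b(y-r) φ(D(r,y))`, `D(r,y) = P(r,y) - P(r,2r-y)`, `I1 = [T, T+2ℓ]`, `I2 = [T+2ℓ, T+4ℓ]`,
`F(y) = ∫_(I2) f`, `Fs(y) = ∫_T^(T+4ℓ) |f|`, `S = ∫ Fs²`, `Q = ∫ F²` (integrals in `y` over a period).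
`CharSol.drop_step`: `drop2 - drop1 ≤ - 2(α+2) ∫_y ∫_(t ∈ I1) f(t+2ℓ,y) ∫_t^(t+2ℓ) f(r,y) dr`, and
`∫_t^(t+2ℓ) f = F + e`, `|e| ≤ V(y) = ∫_(I1) |f(r,y) - f(r+2ℓ,y)| dr`, so
`drop2 - drop1 ≤ - 2(α+2) Q + 2(α+2) ∫ Fs V`.  NEW: as `|φ(x) - φ(y)| ≤ (α+1) max(|x|,|y|)^α |x-y|`,
`b(y-r) = b(y-r-2ℓ)` and `|D(r+2ℓ,y) - D(r,y)| ≤ Fs(y) + Fs(2r-y)` (`D_shift`, periodicity),
`V(y) ≤ (α+1) ∫_(I1) W(y-r) (Fs(y) + Fs(2r-y)) dr ≤ (α+1) (w Fs(y) + K(y))`,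
`K(y)² ≤ w ∫_(I1) W(y-r) Fs(2r-y)² dr` (Cauchy-Schwarz), `∫ K² ≤ w² S` (Fubini; for fixed `r` the
substitution `y ↦ 2r - y`, `integral_reflect`, `W` even).  So `∫ Fs V ≤ 2 (α+1) w S`.  And
`Fs(y)² ≤ (∫_T^(T+4ℓ) κ b |D|^α) (∫_T^(T+4ℓ) κ b |D|^(α+2)) ≤ 2 w ∫_T^(T+4ℓ) κ b |D|^(α+2)`, so
`S ≤ 2 w (En T - En (T+4ℓ))` (`energy_identity`).  Finally `drop2² ≤ 4 Q En(T+2ℓ)` as in the old proof. -/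
def KeyStmt : Prop := ∀ (κ α ℓ b0 : ℝ) (b : ℝ → ℝ) (P : ℝ → ℝ → ℝ) (T w : ℝ) (W : ℝ → ℝ),
  CharSol κ α ℓ b0 b P → 0 ≤ T → Ker κ α ℓ b P T w W →
  En ℓ P (T + (2 * ℓ)) * ((En ℓ P (T + (2 * ℓ)) - En ℓ P (T + 2 * (2 * ℓ))) -
      (En ℓ P T - En ℓ P (T + (2 * ℓ))) -
      8 * (α + 2) * (α + 1) * w ^ 2 * (En ℓ P T - En ℓ P (T + 2 * (2 * ℓ)))) ≤
    -((α + 2) / 2) * (En ℓ P (T + (2 * ℓ)) - En ℓ P (T + 2 * (2 * ℓ))) ^ 2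

/-- DRP (medium; no hypotheses): the drop of the energy.  `D` as in KEY.
`drop = κ ∫_T^(T+2ℓ) psi = ∫∫ κ b |D|^α D² ≤ ∫_s ∫_y W(y-s) 2 (P(s,y)² + P(s,2s-y)²) =
4 ∫_s ∫_y W(y-s) P(s,y)²` (reflection), and `P(s,y)² ≤ 2 P(T,y)² + 2 F1(y)²`,
`F1(y) = ∫_T^(T+2ℓ) κ b |D|^(α+1)`, so (integrate in `s` first) `drop ≤ 8 w (En T + ∫ F1²)`,
`F1² ≤ w ∫_T^(T+2ℓ) κ b |D|^(α+2)` (Cauchy-Schwarz), `∫ F1² ≤ w drop`.  If `8 w² ≤ 1/2`: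
`drop ≤ 16 w En T`.  Otherwise `w ≥ 1/4` and `drop ≤ En T ≤ 4 w En T`. -/
def DrpStmt : Prop := ∀ (κ α ℓ b0 : ℝ) (b : ℝ → ℝ) (P : ℝ → ℝ → ℝ) (T w : ℝ) (W : ℝ → ℝ),
  CharSol κ α ℓ b0 b P → 0 ≤ T → Ker κ α ℓ b P T w W →
  En ℓ P T - En ℓ P (T + 2 * ℓ) ≤ 16 * w * En ℓ P T

/-- FLR (easy-medium; no hypotheses): lower bound of the energy over a bounded time.  `K = 4 k1 Λ^α`.
`κ psi(s) = ∫ κ b |D|^α D² ≤ k1 Λ^α ∫ 2 (P² + P(2s-y)²) = K En(s)` (compare `CharSol.psi_le`), so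
`En' = - κ psi ≥ - K En` (`energy_identity`, `psi_cont`), and `e^(K s) En(T+s)` is nondecreasing. -/
def FlrStmt : Prop := ∀ (κ α ℓ b0 : ℝ) (b : ℝ → ℝ) (P : ℝ → ℝ → ℝ) (k0 k1 Λ : ℝ),
  UB κ α ℓ b0 b P k0 k1 Λ → ∀ T δ : ℝ, 0 ≤ T → 0 ≤ δ →
  Real.exp (-(4 * (k1 * Λ ^ α) * δ)) * En ℓ P T ≤ En ℓ P (T + δ)

/-- SQL (medium; no hypotheses): sequences, uniform version of `Helper39_Wave.seq_lower` (adapt the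
proof).  `p = 1 + α/2`, `d_k = E_k - E_(k+1)`, `q_k = d_k/E_k^p` (or `d_k E_(k+1)^(-p)` as in the old proof).
The last hypothesis: `d_(k+1) (1 - ε_k + p x) ≤ d_k (1 + ε_k)`, `x = d_(k+1)/E_(k+1)`.  With
`y = d_k/E_(k+1) ≤ C (k+1)^(-s)/θ`: `q_(k+1) ≤ q_k (1 + C' (y² + ε_k))` for `k ≥ k0` (`k0, C'` depend on
`α, C, s, θ`), and `∑ (k+1)^(-2s) < ∞`.  At `k0`: `q_k ≤ E_k^(1-p) ≤ (θ^k0 e0)^(-α/2)`.  So `q_k ≤ Q` for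
`k ≥ k0`, `z_k = E_k^(-α/2)` satisfies `z_(k+1) ≤ z_k + K Q` (as `E_(k+1) ≥ θ E_k`:
`(1-u)^(-α/2) ≤ 1 + K u` for `0 ≤ u ≤ 1 - θ`), `z_(k0) ≤ (θ^k0 e0)^(-α/2)`. -/
def SqlStmt : Prop := ∀ (α C s e0 θ : ℝ), 0 < α → 0 ≤ C → 1 / 2 < s → 0 < e0 → 0 < θ → θ ≤ 1 →
  ∃ c : ℝ, 0 < c ∧ ∀ E ε : ℕ → ℝ, (∀ k, 0 < E k) → e0 ≤ E 0 → (∀ k, E (k + 1) ≤ E k) →
  (∀ k, θ * E k ≤ E (k + 1)) → (∀ k, 0 ≤ ε k) → (∀ k : ℕ, ε k ≤ C * ((k : ℝ) + 1) ^ (-(2 * s))) →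
  (∀ k : ℕ, E k - E (k + 1) ≤ C * ((k : ℝ) + 1) ^ (-s) * E k) →
  (∀ k, E (k + 1) * ((E (k + 1) - E (k + 2)) - (E k - E (k + 1)) - ε k * (E k - E (k + 2))) ≤
    -((α + 2) / 2) * (E (k + 1) - E (k + 2)) ^ 2) →
  ∀ k : ℕ, c * ((k : ℝ) + 1) ^ (-(2 / α)) ≤ E k

/-- URT (medium; uses SUP, KRN, KEY, DRP, FLR, SQL): the uniform rate; compare `CharSol.rate`.
`β = min α ((2+α)/4)`: `0 < β < 1`, `β ≤ α`, `s = β/α > 1/2`.  `M_k = (1 + α cc k)^(-1/α) ≤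
C (k+1)^(-1/α)`, `|P| ≤ M_k` for `t ≥ 2ℓk` (SUP).  `Ker` with `T = 2ℓk`, `W = WW κ α ℓ b Λ M_k`
(`fold_neg`, `fold_per`, `fold_nonneg`, `fold_continuous`; `|D| ≤ 2 M_k`, `|D| ≤ Λ fold`),
`w = C M_k^β ≤ C (k+1)^(-s)` (KRN).  `E_k = En(2ℓk)`, `ε_k = 8(α+2)(α+1) w²`, `θ = e^(-8 k1 Λ^α ℓ)` (FLR);
`E_k > 0` (FLR from `T = 0`).  SQL; then all times: `En` is nonincreasing.  Upper bound:
`En ≤ 2ℓ M_k²`, `k = ⌊t/ℓ⌋` (SUP). -/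
def UrtStmt : Prop := ∀ (α ℓ k0 k1 Λ e0 : ℝ), 0 < α → α < 2 → 0 < ℓ → 0 < k0 → 0 ≤ k1 → 0 ≤ Λ →
  0 < e0 → ∃ c C : ℝ, 0 < c ∧ 0 < C ∧ ∀ (κ b0 : ℝ) (b : ℝ → ℝ) (P : ℝ → ℝ → ℝ),
  UB κ α ℓ b0 b P k0 k1 Λ → e0 ≤ En ℓ P 0 → ∀ t, 0 ≤ t →
  c * (1 + t) ^ (-(2 / α)) ≤ En ℓ P t ∧ En ℓ P t ≤ C * (1 + t) ^ (-(2 / α))

end

end Pool.Agent.BED
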